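import Mathlib

/-!
# Sums of bits times vectors are nearly uniform

`v l` are elements of a finite abelian group `W`. If every nontrivial character is not too near to `1` on many of them,
then every `w` is the sum of the `v l` over about the same number of sets.
-/

set_option autoImplicit false

namespace Pool.Agent.Helper43.NB

open Finset

section fibre

variable {ι W : Type} [Fintype ι] [DecidableEq ι] [AddCommGroup W] [Fintype W]

/-- The sum of the `v l` with `y l`. -/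
def bsum (v : ι → W) (y : ι → Bool) : W := ∑ l, if y l then v l else 0

theorem norm_char (ψ : AddChar W ℂ) (x : W) : ‖ψ x‖ = 1 := AddChar.norm_apply ψ x

theorem norm_one_add (ψ : AddChar W ℂ) (x : W) : ‖1 + ψ x‖ ≤ 2 := by
  calc ‖1 + ψ x‖ ≤ ‖(1 : ℂ)‖ + ‖ψ x‖ := norm_add_le _ _
    _ = 2 := by rw [norm_one, norm_char]; norm_num

omit [Fintype ι] [DecidableEq ι] [Fintype W] in
theorem char_sum (ψ : AddChar W ℂ) (s : Finset ι) (f : ι → W) :
    ψ (∑ l ∈ s, f l) = ∏ l ∈ s, ψ (f l) := by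
  classical
  induction s using Finset.induction_on with
  | empty => rw [Finset.sum_empty, Finset.prod_empty, AddChar.map_zero_eq_one]
  | insert a s ha ih => rw [Finset.sum_insert ha, Finset.prod_insert ha, AddChar.map_add_eq_mul, ih]

theorem char_bsum (v : ι → W) (ψ : AddChar W ℂ) (y : ι → Bool) :
    ψ (bsum v y) = ∏ l, (if y l then ψ (v l) else 1) := by
  unfold bsum
  rw [char_sum]
  refine Finset.prod_congr rfl fun l _ => ?_
  split_ifs
  · rfl
  · exact AddChar.map_zero_eq_one ψ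

theorem sum_char_bsum (v : ι → W) (ψ : AddChar W ℂ) :
    ∑ y : ι → Bool, ψ (bsum v y) = ∏ l, (1 + ψ (v l)) := by
  have h1 : ∏ l, (1 + ψ (v l)) = ∏ l : ι, ∑ b : Bool, (if b then ψ (v l) else 1) := by
    refine Finset.prod_congr rfl fun l _ => ?_
    rw [Fintype.sum_bool]
    simp [add_comm]
  rw [h1, Finset.prod_univ_sum, Fintype.piFinset_univ]
  exact Finset.sum_congr rfl fun y _ => char_bsum v ψ y

theorem norm_prod_le (v : ι → W) (κ : ℝ) (hκ : 0 ≤ κ) (hκ1 : κ ≤ 1) (d : ℕ) (ψ : AddChar W ℂ)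
    (hd : d ≤ (univ.filter fun l => ‖1 + ψ (v l)‖ ≤ 2 * κ).card) :
    ‖∏ l, (1 + ψ (v l))‖ ≤ 2 ^ Fintype.card ι * κ ^ d := by
  rw [norm_prod]
  have h1 : ∀ l ∈ (univ : Finset ι), ‖1 + ψ (v l)‖ ≤ 2 * (if ‖1 + ψ (v l)‖ ≤ 2 * κ then κ else 1) := by
    intro l _
    split_ifs with h
    · exact h
    · rw [mul_one]
      exact norm_one_add ψ (v l)
  refine (Finset.prod_le_prod (fun l _ => norm_nonneg _) h1).trans ?_
  rw [Finset.prod_mul_distrib, Finset.prod_const, Finset.card_univ, Finset.prod_ite, Finset.prod_const,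
    Finset.prod_const_one, mul_one]
  exact mul_le_mul_of_nonneg_left (pow_le_pow_of_le_one hκ hκ1 hd) (by positivity)

/-- The fibres of the sum are nearly uniform. -/
theorem fibre_bound (v : ι → W) (κ : ℝ) (hκ : 0 ≤ κ) (hκ1 : κ ≤ 1) (d : ℕ)
    (hd : ∀ ψ : AddChar W ℂ, ψ ≠ 0 → d ≤ (univ.filter fun l => ‖1 + ψ (v l)‖ ≤ 2 * κ).card) (w : W) :
    (Nat.card {y : ι → Bool // bsum v y = w} : ℝ) * Fintype.card W ≤
      2 ^ Fintype.card ι * (1 + Fintype.card W * κ ^ d) := by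
  classical
  have h0 : ((Nat.card {y : ι → Bool // bsum v y = w} : ℝ) : ℂ) * Fintype.card W =
      ∑ ψ : AddChar W ℂ, ψ (-w) * ∏ l, (1 + ψ (v l)) := by
    have h1 : ∀ y : ι → Bool, ∑ ψ : AddChar W ℂ, ψ (bsum v y - w) =
        if bsum v y = w then (Fintype.card W : ℂ) else 0 := by
      intro y
      rw [AddChar.sum_apply_eq_ite]
      simp only [sub_eq_zero]
    have h2 : ∑ y : ι → Bool, (if bsum v y = w then (Fintype.card W : ℂ) else 0) =
        ((Nat.card {y : ι → Bool // bsum v y = w} : ℝ) : ℂ) * Fintype.card W := by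
      rw [Nat.card_eq_fintype_card, Fintype.card_subtype, ← Finset.sum_filter, Finset.sum_const,
        nsmul_eq_mul]
      push_cast
      rfl
    rw [← h2, ← Finset.sum_congr rfl fun y _ => h1 y, Finset.sum_comm]
    refine Finset.sum_congr rfl fun ψ _ => ?_
    rw [← sum_char_bsum, Finset.mul_sum]
    refine Finset.sum_congr rfl fun y _ => ?_
    rw [← AddChar.map_add_eq_mul]
    congr 1
    abel
  have h3 : (Nat.card {y : ι → Bool // bsum v y = w} : ℝ) * Fintype.card W =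
      ‖∑ ψ : AddChar W ℂ, ψ (-w) * ∏ l, (1 + ψ (v l))‖ := by
    rw [← h0]
    rw [← Complex.ofReal_natCast (Fintype.card W), ← Complex.ofReal_mul, Complex.norm_real,
      Real.norm_of_nonneg (by positivity)]
  rw [h3]
  have h4 : ∀ ψ ∈ (univ : Finset (AddChar W ℂ)), ‖ψ (-w) * ∏ l, (1 + ψ (v l))‖ ≤
      (if ψ = 0 then (2 : ℝ) ^ Fintype.card ι else 0) + 2 ^ Fintype.card ι * κ ^ d := by
    intro ψ _
    rw [norm_mul, norm_char, one_mul]
    split_ifs with h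
    · have h5 : ‖∏ l, (1 + ψ (v l))‖ ≤ 2 ^ Fintype.card ι := by
        rw [norm_prod]
        calc ∏ l, ‖1 + ψ (v l)‖ ≤ ∏ _l : ι, (2 : ℝ) :=
              Finset.prod_le_prod (fun l _ => norm_nonneg _) fun l _ => norm_one_add ψ (v l)
          _ = 2 ^ Fintype.card ι := by rw [Finset.prod_const, Finset.card_univ]
      have h6 : (0 : ℝ) ≤ 2 ^ Fintype.card ι * κ ^ d := by positivity
      linarith
    · rw [zero_add]
      exact norm_prod_le v κ hκ hκ1 d ψ (hd ψ h)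
  refine (norm_sum_le _ _).trans ((Finset.sum_le_sum h4).trans ?_)
  rw [Finset.sum_add_distrib, Finset.sum_ite_eq' univ (0 : AddChar W ℂ), if_pos (mem_univ _),
    Finset.sum_const, Finset.card_univ, AddChar.card_eq, nsmul_eq_mul]
  apply le_of_eq
  ring

end fibre

/-! ## Roots of unity of odd order -/

/-- A root of unity `ζ ≠ 1` of order dividing `p` has distance at least `1 / p` from `1`. -/
theorem norm_one_sub {p : ℕ} (hp : p ≠ 0) {ζ : ℂ} (hζ : ζ ^ p = 1) (h1 : ζ ≠ 1) : 1 ≤ p * ‖1 - ζ‖ := by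
  -- the sum of the powers is zero
  have h2 : ∑ j ∈ range p, ζ ^ j = 0 := by
    have h3 := mul_neg_geom_sum ζ p
    rw [hζ, sub_self] at h3
    rcases mul_eq_zero.1 h3 with h4 | h4
    · exact absurd (sub_eq_zero.1 h4).symm h1
    · exact h4
  have h5 : ∑ j ∈ range p, (1 - ζ ^ j) = p := by
    rw [Finset.sum_sub_distrib, h2, sub_zero, Finset.sum_const, card_range, nsmul_eq_mul, mul_one]
  have h6 : (p : ℝ) ≤ ∑ j ∈ range p, ‖1 - ζ ^ j‖ := by
    calc (p : ℝ) = ‖(p : ℂ)‖ := (Complex.norm_natCast p).symm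
      _ = ‖∑ j ∈ range p, (1 - ζ ^ j)‖ := by rw [h5]
      _ ≤ _ := norm_sum_le _ _
  have h7 : ∃ j ∈ range p, 1 ≤ ‖1 - ζ ^ j‖ := by
    by_contra h8
    push Not at h8
    have h9 : ∑ j ∈ range p, ‖1 - ζ ^ j‖ < ∑ _j ∈ range p, (1 : ℝ) :=
      Finset.sum_lt_sum_of_nonempty (nonempty_range_iff.2 hp) h8
    rw [Finset.sum_const, card_range, nsmul_eq_mul, mul_one] at h9
    linarith
  obtain ⟨j, hj, hj1⟩ := h7
  have hn : ‖ζ‖ = 1 := by
    have h8 : ‖ζ‖ ^ p = 1 := by rw [← norm_pow, hζ, norm_one]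
    exact (pow_eq_one_iff_of_nonneg (norm_nonneg _) hp).1 h8
  have h8 : ‖1 - ζ ^ j‖ ≤ j * ‖1 - ζ‖ := by
    have h9 := mul_neg_geom_sum ζ j
    rw [← h9, norm_mul, mul_comm]
    refine mul_le_mul_of_nonneg_right ?_ (norm_nonneg _)
    refine (norm_sum_le _ _).trans ?_
    calc ∑ i ∈ range j, ‖ζ ^ i‖ = ∑ _i ∈ range j, (1 : ℝ) :=
          Finset.sum_congr rfl fun i _ => by rw [norm_pow, hn, one_pow]
      _ = j := by rw [Finset.sum_const, card_range, nsmul_eq_mul, mul_one]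
      _ ≤ j := le_rfl
  have h9 : (j : ℝ) ≤ p := by exact_mod_cast (mem_range.1 hj).le
  calc (1 : ℝ) ≤ ‖1 - ζ ^ j‖ := hj1
    _ ≤ j * ‖1 - ζ‖ := h8
    _ ≤ p * ‖1 - ζ‖ := mul_le_mul_of_nonneg_right h9 (norm_nonneg _)

/-- The factor which a root of unity `ζ ≠ 1` of order dividing `p` gives. -/
theorem norm_one_add_le {p : ℕ} (hp : p ≠ 0) {ζ : ℂ} (hζ : ζ ^ p = 1) (h1 : ζ ≠ 1) :
    ‖1 + ζ‖ ≤ 2 * (1 - 1 / (8 * (p : ℝ) ^ 2)) := by
  have h2 := norm_one_sub hp hζ h1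
  have hp1 : (1 : ℝ) ≤ p := by exact_mod_cast Nat.one_le_iff_ne_zero.2 hp
  have hn : ‖ζ‖ = 1 := by
    have h8 : ‖ζ‖ ^ p = 1 := by rw [← norm_pow, hζ, norm_one]
    exact (pow_eq_one_iff_of_nonneg (norm_nonneg _) hp).1 h8
  have h3 : ‖1 + ζ‖ ^ 2 + ‖1 - ζ‖ ^ 2 = 4 := by
    have h4 := parallelogram_law_with_norm ℝ (1 : ℂ) ζ
    rw [hn, norm_one] at h4
    nlinarith
  have h5 : 1 / (p : ℝ) ^ 2 ≤ ‖1 - ζ‖ ^ 2 := by
    rw [div_le_iff₀ (by positivity)]
    nlinarith [norm_nonneg (1 - ζ)]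
  have h6 : (0 : ℝ) ≤ 1 - 1 / (8 * (p : ℝ) ^ 2) := by
    rw [sub_nonneg, div_le_one (by positivity)]
    nlinarith
  refine abs_le_of_sq_le_sq' ?_ (by positivity) |>.2
  have h7 : (1 / (8 * (p : ℝ) ^ 2)) = 1 / (p : ℝ) ^ 2 / 8 := by
    field_simp
  rw [h7]
  nlinarith [sq_nonneg (1 / (p : ℝ) ^ 2)]

end Pool.Agent.Helper43.NB
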