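import Pool.Agent.Helper27.NB.Defs
import Pool.Agent.Helper60.NF.Frm

/-!
# B1: few inputs have two equal elements in the rows below `n`

Every table of words comes from equally many inputs.
-/

set_option autoImplicit false

namespace Pool.Agent.Helper43.NB

open Pool.Agent.Helper19.NF (CF)
open Pool.Agent.Helper27.NB

variable {Λ F W B : Type} {ρ h : ℕ}

/-- A block is its word and another independent datum. -/
theorem exists_block_equiv [Fintype Λ] [Finite F] [Finite W] (H : Hide Λ F W ρ h)
    (hh : h ≤ Fintype.card Λ) :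
    ∃ (T : Type) (_ : Finite T) (e : (Λ → F) ≃ W × T), ∀ y, (e y).1 = H.dec y := by
  classical
  obtain ⟨X, -, hX⟩ := Finset.exists_subset_card_eq (s := (Finset.univ : Finset Λ))
    (n := h) (by simpa using hh)
  let T : Type := ({l : Λ // l ∉ X} → F) × Fin ρ
  let f : (Λ → F) → W × T := fun y => (H.dec y, (fun l => y l.1, H.res X y))
  have hinj : Function.Injective f := by
    intro y y' hy
    have h1 : H.dec y = H.dec y' := congrArg Prod.fst hy
    have h2 := congrArg (fun p : W × T => p.2.1) hy
    have h3 : H.res X y = H.res X y' := congrArg (fun p : W × T => p.2.2) hy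
    exact H.inj X hX y y' (fun l hl => congrFun h2 ⟨l, hl⟩) h1 h3
  have hcard : Nat.card (W × T) = Nat.card (Λ → F) := by
    rw [Nat.card_prod, Nat.card_prod, Nat.card_fun, Nat.card_fun, Nat.card_fin,
      Nat.card_eq_fintype_card (α := {l : Λ // l ∉ X}), Fintype.card_subtype_compl,
      Nat.card_eq_fintype_card (α := Λ)]
    have h4 : Fintype.card {l : Λ // l ∈ X} = h := by
      rw [Fintype.card_coe, hX]
    rw [h4]
    calc Nat.card W * (Nat.card F ^ (Fintype.card Λ - h) * ρ)
        = Nat.card F ^ (Fintype.card Λ - h) * (ρ * Nat.card W) := by ring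
      _ = Nat.card F ^ (Fintype.card Λ - h) * Nat.card F ^ h := by rw [H.card]
      _ = Nat.card F ^ Fintype.card Λ := by rw [← pow_add, Nat.sub_add_cancel hh]
  have hbij : Function.Bijective f :=
    (Nat.bijective_iff_injective_and_card f).2 ⟨hinj, hcard.symm⟩
  exact ⟨T, inferInstance, Equiv.ofBijective f hbij, fun y => rfl⟩

/-- An input is its table of words and another independent datum. -/
theorem exists_input_equiv [Finite B] [Fintype Λ] [Finite F] [Finite W] (H : Hide Λ F W ρ h)
    (hh : h ≤ Fintype.card Λ) :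
    ∃ (T : Type) (_ : Finite T) (e : (B × Λ → F) ≃ (B → W) × T), ∀ J, (e J).1 = wd H J := by
  obtain ⟨T, hT, e, he⟩ := exists_block_equiv H hh
  refine ⟨B → T, inferInstance, (Equiv.curry B Λ F).trans
    ((Equiv.piCongrRight fun _ : B => e).trans (Equiv.arrowProdEquivProdArrow B (fun _ => W) (fun _ => T))), ?_⟩
  intro J
  funext b
  exact he _

/-- A property of the table of words has the same density for inputs and for tables. -/
theorem card_words [Finite B] [Fintype Λ] [Finite F] [Finite W] (H : Hide Λ F W ρ h)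
    (hh : h ≤ Fintype.card Λ) :
    ∃ t : ℕ, Nat.card (B × Λ → F) = Nat.card (B → W) * t ∧
      ∀ p : (B → W) → Prop, Nat.card {J : B × Λ → F // p (wd H J)} = Nat.card {I // p I} * t := by
  obtain ⟨T, hT, e, he⟩ := exists_input_equiv (B := B) H hh
  refine ⟨Nat.card T, ?_, fun p => ?_⟩
  · rw [Nat.card_congr e, Nat.card_prod]
  · have e1 : {J : B × Λ → F // p (wd H J)} ≃ {x : (B → W) × T // p x.1} :=
      e.subtypeEquiv fun J => by rw [he]
    have e2 : {x : (B → W) × T // p x.1} ≃ {I // p I} × T :=
      { toFun := fun x => (⟨x.1.1, x.2⟩, x.1.2)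
        invFun := fun x => ⟨(x.1.1, x.2), x.1.2⟩
        left_inv := fun _ => rfl
        right_inv := fun _ => rfl }
    rw [Nat.card_congr (e1.trans e2), Nat.card_prod]

variable {U D : Type} [Fintype U] [Fintype D] [AddCommGroup B] [Fintype B] [Fintype Λ] [Fintype F]

/-- B1: few inputs have two equal elements in the rows below `n`. -/
theorem card_not_CF [Nonempty D] (H : Hide Λ F (D → B) ρ h)
    (hh : h ≤ Fintype.card Λ) (g : D → Equiv.Perm U)
    (x0 : U → B) (h0 : Function.Injective x0) (n : ℕ) :
    Nat.card {J : B × Λ → F // ¬ CF g x0 n (wd H J)} * Fintype.card B ≤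
      (n * Fintype.card U) ^ 2 * Nat.card (B × Λ → F) := by
  obtain ⟨t, ht, hp⟩ := card_words (B := B) H hh
  rw [hp fun I => ¬ CF g x0 n I, ht]
  have h1 := Pool.Agent.Helper60.NFF.card_not_CF g x0 h0 n
  calc Nat.card {I : B → D → B // ¬ CF g x0 n I} * t * Fintype.card B
      = Nat.card {I : B → D → B // ¬ CF g x0 n I} * Fintype.card B * t := by ring
    _ ≤ (n * Fintype.card U) ^ 2 * Nat.card (B → D → B) * t := Nat.mul_le_mul_right t h1
    _ = (n * Fintype.card U) ^ 2 * (Nat.card (B → D → B) * t) := by ring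

end Pool.Agent.Helper43.NB
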